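import Pool.Agent.helper70.GB.SpecK

/-!
# Project gb, module ES: transitivity of elementary isometries on hyperbolic pairs
-/

set_option autoImplicit false

open Matrix

namespace GB

universe u

section ESform

variable {A : Type*} [CommRing A] {κ : Type*} [Fintype κ]

/-- the bilinear form of a matrix. -/
def ES_b (B : Matrix κ κ A) (u w : κ → A) : A := u ⬝ᵥ (B *ᵥ w)

theorem ES_b_add_left (B : Matrix κ κ A) (u u' w : κ → A) :
    ES_b B (u + u') w = ES_b B u w + ES_b B u' w := by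
  simp [ES_b, add_dotProduct]

theorem ES_b_add_right (B : Matrix κ κ A) (u w w' : κ → A) :
    ES_b B u (w + w') = ES_b B u w + ES_b B u w' := by
  simp [ES_b, mulVec_add, dotProduct_add]

theorem ES_b_smul_left (B : Matrix κ κ A) (c : A) (u w : κ → A) :
    ES_b B (c • u) w = c * ES_b B u w := by
  simp [ES_b, smul_dotProduct]

theorem ES_b_smul_right (B : Matrix κ κ A) (c : A) (u w : κ → A) :
    ES_b B u (c • w) = c * ES_b B u w := by
  simp [ES_b, mulVec_smul, dotProduct_smul]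

theorem ES_b_self {B : Matrix κ κ A} (hB : IsAlt B) (u : κ → A) : ES_b B u u = 0 := by
  classical
  have h1 : ∀ i j, B j i = - B i j := fun i j => congrFun (congrFun hB.1 i) j
  have h : ES_b B u u = ∑ p : κ × κ, u p.1 * (B p.1 p.2 * u p.2) := by
    rw [Fintype.sum_prod_type]
    simp only [ES_b, dotProduct, mulVec, Finset.mul_sum]
  rw [h]
  refine Finset.sum_involution (fun p _ => (p.2, p.1)) ?_ ?_ ?_ ?_
  · rintro ⟨i, j⟩ _
    simp only [h1 i j]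
    ring
  · rintro ⟨i, j⟩ _ hne heq
    simp only [Prod.mk.injEq] at heq
    obtain ⟨rfl, -⟩ := heq
    simp [hB.2] at hne
  · intro _ _
    exact Finset.mem_univ _
  · intro _ _
    rfl

theorem ES_b_swap {B : Matrix κ κ A} (hB : IsAlt B) (u w : κ → A) :
    ES_b B w u = - ES_b B u w := by
  have h := ES_b_self hB (u + w)
  rw [ES_b_add_left, ES_b_add_right, ES_b_add_right, ES_b_self hB, ES_b_self hB] at h
  linear_combination h

variable [DecidableEq κ]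

theorem ES_iso {B τ : Matrix κ κ A}
    (h : ∀ u w, ES_b B (τ *ᵥ u) (τ *ᵥ w) = ES_b B u w) : τᵀ * B * τ = B := by
  have key : ∀ u w, ES_b (τᵀ * B * τ) u w = ES_b B u w := by
    intro u w
    rw [← h u w]
    unfold ES_b
    rw [← mulVec_mulVec, ← mulVec_mulVec, dotProduct_mulVec, vecMul_transpose]
  ext i j
  have := key (Pi.single i 1) (Pi.single j 1)
  simpa [ES_b] using this

theorem ES_mulVec (x y w : κ → A) : (1 + vecMulVec x y) *ᵥ w = w + (y ⬝ᵥ w) • x := by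
  rw [add_mulVec, one_mulVec]
  congr 1
  ext i
  simp only [mulVec, dotProduct, vecMulVec_apply, Pi.smul_apply, smul_eq_mul, Finset.sum_mul]
  exact Finset.sum_congr rfl fun k _ => by ring

/-- elementary isometries. -/
def ES_I (B : Matrix κ κ A) : Submonoid (Matrix κ κ A) where
  carrier := {τ | τ ∈ E κ A ∧ τᵀ * B * τ = B}
  one_mem' := ⟨one_mem_E, by simp⟩
  mul_mem' := by
    rintro σ τ ⟨h1, h2⟩ ⟨h3, h4⟩
    refine ⟨(E κ A).mul_mem h1 h3, ?_⟩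
    rw [transpose_mul]
    calc τᵀ * σᵀ * B * (σ * τ) = τᵀ * (σᵀ * B * σ) * τ := by simp only [Matrix.mul_assoc]
      _ = B := by rw [h2, h4]

/-- the Eichler transformation. -/
theorem ES_eichler {B : Matrix κ κ A} (hB : IsAlt B) (i0 j0 : κ) (hij : ∀ i, i ≠ j0 → B i0 i = 0)
    (x : κ → A) (hx : x j0 = 0) :
    ∃ τ ∈ ES_I B, ∀ w, τ *ᵥ w = w + ES_b B (Pi.single i0 1) w • x +
      ES_b B x w • (Pi.single i0 1 : κ → A) := by
  set a : κ → A := Pi.single i0 1 with ha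
  have hax : ES_b B a x = 0 := by
    rw [ES_b, ha, single_one_dotProduct]
    simp only [mulVec, dotProduct]
    refine Finset.sum_eq_zero fun i _ => ?_
    by_cases hi : i = j0
    · rw [hi, hx, mul_zero]
    · rw [hij i hi, zero_mul]
  have hxa : ES_b B x a = 0 := by rw [ES_b_swap hB a x, hax, neg_zero]
  have h1 : (1 + vecMulVec x (a ᵥ* B)) ∈ E κ A := by
    refine E_one_add_vecMulVec _ _ fun i => ?_
    by_cases hi : i = j0
    · exact Or.inl (by rw [hi, hx])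
    · refine Or.inr ?_
      rw [ha, single_one_vecMul]
      exact hij i hi
  have h2 : (1 + vecMulVec a (x ᵥ* B)) ∈ E κ A := by
    refine E_one_add_vecMulVec _ _ fun i => ?_
    by_cases hi : i = i0
    · refine Or.inr ?_
      rw [hi]
      have : (x ᵥ* B) i0 = ES_b B x a := by
        rw [ES_b, dotProduct_mulVec, ha, dotProduct_single, mul_one]
      rw [this, hxa]
    · exact Or.inl (by rw [ha, Pi.single_eq_of_ne hi])
  have h3 : ∀ w, ((1 + vecMulVec x (a ᵥ* B)) * (1 + vecMulVec a (x ᵥ* B))) *ᵥ w =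
      w + ES_b B a w • x + ES_b B x w • a := by
    intro w
    rw [← mulVec_mulVec, ES_mulVec, ES_mulVec, ← dotProduct_mulVec, ← dotProduct_mulVec]
    have e1 : a ⬝ᵥ (B *ᵥ (w + (x ⬝ᵥ (B *ᵥ w)) • a)) = ES_b B a w := by
      have : ES_b B a (w + (x ⬝ᵥ (B *ᵥ w)) • a) = ES_b B a w := by
        rw [ES_b_add_right, ES_b_smul_right, ES_b_self hB, mul_zero, add_zero]
      exact this
    rw [e1]
    change w + ES_b B x w • a + ES_b B a w • x = _
    abel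
  refine ⟨_, ⟨(E κ A).mul_mem h1 h2, ES_iso fun u w => ?_⟩, h3⟩
  rw [h3, h3]
  simp only [ES_b_add_left, ES_b_add_right, ES_b_smul_left, ES_b_smul_right, hax, hxa,
    ES_b_self hB, ES_b_swap hB a u, ES_b_swap hB x u]
  ring

/-- the transvection. -/
theorem ES_transv {B : Matrix κ κ A} (hB : IsAlt B) (i0 : κ) (c : A) :
    ∃ τ ∈ ES_I B, ∀ w, τ *ᵥ w = w + (c * ES_b B (Pi.single i0 1) w) •
      (Pi.single i0 1 : κ → A) := by
  set a : κ → A := Pi.single i0 1 with ha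
  have h1 : (1 + vecMulVec a (c • (a ᵥ* B))) ∈ E κ A := by
    refine E_one_add_vecMulVec _ _ fun i => ?_
    by_cases hi : i = i0
    · refine Or.inr ?_
      rw [hi, ha, single_one_vecMul]
      simp [hB.2]
    · exact Or.inl (by rw [ha, Pi.single_eq_of_ne hi])
  have h3 : ∀ w, (1 + vecMulVec a (c • (a ᵥ* B))) *ᵥ w = w + (c * ES_b B a w) • a := by
    intro w
    rw [ES_mulVec, smul_dotProduct, ← dotProduct_mulVec, smul_eq_mul]
    rfl
  refine ⟨_, ⟨h1, ES_iso fun u w => ?_⟩, h3⟩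
  rw [h3, h3]
  simp only [ES_b_add_left, ES_b_add_right, ES_b_smul_left, ES_b_smul_right,
    ES_b_self hB, ES_b_swap hB a u]
  ring

end ESform

section ESmain

variable {A : Type u} [CommRing A] {ι : Type} [Fintype ι] [DecidableEq ι]

/-- the vector with given components. -/
def ES_J (p : ι → A) (α β : A) : ι ⊕ (Fin 1 ⊕ Fin 1) → A :=
  Sum.elim p (Sum.elim (fun _ => α) (fun _ => β))

omit [CommRing A] [Fintype ι] [DecidableEq ι] in
theorem ES_J_eta (x : ι ⊕ (Fin 1 ⊕ Fin 1) → A) :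
    x = ES_J (fun i => x (Sum.inl i)) (x (Sum.inr (Sum.inl 0))) (x (Sum.inr (Sum.inr 0))) := by
  ext i
  rcases i with i | i | i
  · rfl
  · rw [Subsingleton.elim i 0]; rfl
  · rw [Subsingleton.elim i 0]; rfl

omit [Fintype ι] [DecidableEq ι] in
theorem ES_J_add (p q : ι → A) (α β γ δ : A) :
    ES_J p α β + ES_J q γ δ = ES_J (p + q) (α + γ) (β + δ) := by
  ext i
  rcases i with i | i | i <;> rfl

omit [Fintype ι] [DecidableEq ι] in
theorem ES_J_smul (c : A) (p : ι → A) (α β : A) :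
    c • ES_J p α β = ES_J (c • p) (c * α) (c * β) := by
  ext i
  rcases i with i | i | i <;> rfl

omit [Fintype ι] in
theorem ES_J_e : (Pi.single (Sum.inr (Sum.inl 0)) 1 : ι ⊕ (Fin 1 ⊕ Fin 1) → A) =
    ES_J 0 1 0 := by
  ext i
  rcases i with i | i | i
  · simp [ES_J]
  · rw [Subsingleton.elim i 0]; simp [ES_J]
  · simp [ES_J]

omit [Fintype ι] in
theorem ES_J_f : (Pi.single (Sum.inr (Sum.inr 0)) 1 : ι ⊕ (Fin 1 ⊕ Fin 1) → A) =
    ES_J 0 0 1 := by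
  ext i
  rcases i with i | i | i
  · simp [ES_J]
  · simp [ES_J]
  · rw [Subsingleton.elim i 0]; simp [ES_J]

omit [DecidableEq ι] in
theorem ES_b_J (χ : Matrix ι ι A) (p q : ι → A) (α β γ δ : A) :
    ES_b (dsum χ (Hyp (Fin 1) A)) (ES_J p α β) (ES_J q γ δ) = ES_b χ p q + α * δ - β * γ := by
  unfold ES_b dsum Hyp ES_J
  rw [fromBlocks_mulVec, fromBlocks_mulVec]
  simp only [Sum.elim_comp_inl, Sum.elim_comp_inr, zero_mulVec, add_zero, zero_add, one_mulVec,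
    neg_mulVec]
  rw [sumElim_dotProduct_sumElim, sumElim_dotProduct_sumElim]
  simp [dotProduct]
  ring

theorem ES_alt {χ : Matrix ι ι A} (h : IsAlt χ) : IsAlt (dsum χ (Hyp (Fin 1) A)) := by
  obtain ⟨h1, h2⟩ := h
  constructor
  · unfold dsum Hyp
    rw [Matrix.fromBlocks_transpose, Matrix.fromBlocks_transpose, Matrix.fromBlocks_neg,
      Matrix.fromBlocks_neg, h1]
    simp
  · rintro (i | (i | i))
    · exact h2 i
    · simp [dsum, Hyp]
    · simp [dsum, Hyp]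

theorem ES_b_e (χ : Matrix ι ι A) (v : ι → A) (α β : A) :
    ES_b (dsum χ (Hyp (Fin 1) A)) (Pi.single (Sum.inr (Sum.inl 0)) 1) (ES_J v α β) = β := by
  rw [ES_J_e, ES_b_J]
  simp [ES_b]

theorem ES_b_f (χ : Matrix ι ι A) (v : ι → A) (α β : A) :
    ES_b (dsum χ (Hyp (Fin 1) A)) (Pi.single (Sum.inr (Sum.inr 0)) 1) (ES_J v α β) = -α := by
  rw [ES_J_f, ES_b_J]
  simp [ES_b]

theorem ES_O1 {χ : Matrix ι ι A} (hχ : IsAlt χ) (p : ι → A) :
    ∃ τ ∈ ES_I (dsum χ (Hyp (Fin 1) A)), ∀ v α β, τ *ᵥ ES_J v α β =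
      ES_J (v + β • p) (α + ES_b χ p v) β := by
  obtain ⟨τ, hτ, h⟩ := ES_eichler (ES_alt hχ) (Sum.inr (Sum.inl 0)) (Sum.inr (Sum.inr 0))
    (by
      rintro (i | i | i) hi
      · simp [dsum]
      · simp [dsum, Hyp]
      · exact absurd (by rw [Subsingleton.elim i 0]) hi) (ES_J p 0 0) rfl
  refine ⟨τ, hτ, fun v α β => ?_⟩
  rw [h, ES_b_e, ES_b_J, ES_J_e, ES_J_smul, ES_J_smul, ES_J_add, ES_J_add]
  simp

theorem ES_O2 {χ : Matrix ι ι A} (hχ : IsAlt χ) (c : A) :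
    ∃ τ ∈ ES_I (dsum χ (Hyp (Fin 1) A)), ∀ v α β, τ *ᵥ ES_J v α β =
      ES_J v (α + c * β) β := by
  obtain ⟨τ, hτ, h⟩ := ES_transv (ES_alt hχ) (Sum.inr (Sum.inl 0)) c
  refine ⟨τ, hτ, fun v α β => ?_⟩
  rw [h, ES_b_e, ES_J_e, ES_J_smul, ES_J_add]
  simp

theorem ES_O3 {χ : Matrix ι ι A} (hχ : IsAlt χ) (p : ι → A) :
    ∃ τ ∈ ES_I (dsum χ (Hyp (Fin 1) A)), ∀ v α β, τ *ᵥ ES_J v α β =
      ES_J (v - α • p) α (β + ES_b χ p v) := by
  obtain ⟨τ, hτ, h⟩ := ES_eichler (ES_alt hχ) (Sum.inr (Sum.inr 0)) (Sum.inr (Sum.inl 0))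
    (by
      rintro (i | i | i) hi
      · simp [dsum]
      · exact absurd (by rw [Subsingleton.elim i 0]) hi
      · simp [dsum, Hyp]) (ES_J p 0 0) rfl
  refine ⟨τ, hτ, fun v α β => ?_⟩
  rw [h, ES_b_f, ES_b_J, ES_J_f, ES_J_smul, ES_J_smul, ES_J_add, ES_J_add]
  simp [sub_eq_add_neg]

theorem ES_O4 {χ : Matrix ι ι A} (hχ : IsAlt χ) (c : A) :
    ∃ τ ∈ ES_I (dsum χ (Hyp (Fin 1) A)), ∀ v α β, τ *ᵥ ES_J v α β =
      ES_J v α (β - c * α) := by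
  obtain ⟨τ, hτ, h⟩ := ES_transv (ES_alt hχ) (Sum.inr (Sum.inr 0)) c
  refine ⟨τ, hτ, fun v α β => ?_⟩
  rw [h, ES_b_f, ES_J_f, ES_J_smul, ES_J_add]
  simp [sub_eq_add_neg]

omit [DecidableEq ι] in
theorem ES_SR (hSR : SR A (Fintype.card ι)) (x : ι → A) (s : A) (y : ι → A) (t : A)
    (h : x ⬝ᵥ y + s * t = 1) : ∃ q z : ι → A, (x + s • q) ⬝ᵥ z = 1 := by
  have e := (Fintype.equivFin ι).symm
  obtain ⟨q, z, hz⟩ := hSR (x ∘ e) s ⟨y ∘ e, t, by
    rw [← h]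
    congr 1
    exact Fintype.sum_equiv e _ _ fun _ => rfl⟩
  refine ⟨q ∘ e.symm, z ∘ e.symm, ?_⟩
  rw [← hz]
  refine Fintype.sum_equiv e.symm _ _ fun i => ?_
  simp [mul_comm]

theorem ES_move (hι : 3 ≤ Fintype.card ι) (hSR : ∀ k, 3 ≤ k → SR A k) {χ : Matrix ι ι A}
    (hχ : IsAlt χ) (hd : IsUnit χ.det) (v z : ι → A) (α β t₁ t₂ : A)
    (h : v ⬝ᵥ z + α * t₁ + β * t₂ = 1) :
    ∃ τ ∈ ES_I (dsum χ (Hyp (Fin 1) A)), τ *ᵥ ES_J v α β = ES_J 0 1 0 := by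
  -- first shortening
  obtain ⟨p, c, z', t', h1⟩ : ∃ (p : ι → A) (c : A) (z' : ι → A) (t' : A),
      (v + β • p) ⬝ᵥ z' + (α + β * c) * t' = 1 := by
    obtain ⟨q, z, hz⟩ := ES_SR (ι := Option ι) (hSR _ (by rw [Fintype.card_option]; omega))
      (fun o => o.elim α v) β (fun o => o.elim t₁ z) t₂ (by
        rw [← h, dotProduct, Fintype.sum_option]
        simp only [Option.elim, dotProduct]
        ring)
    refine ⟨fun i => q (some i), q none, fun i => z (some i), z none, ?_⟩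
    rw [← hz, dotProduct, dotProduct, Fintype.sum_option]
    simp only [Pi.add_apply, Pi.smul_apply, smul_eq_mul, Option.elim]
    ring
  obtain ⟨τ₁, hτ₁, g₁⟩ := ES_O1 hχ p
  obtain ⟨τ₂, hτ₂, g₂⟩ := ES_O2 hχ c
  set v₁ : ι → A := v + β • p with hv₁
  set α₁ : A := α + ES_b χ p v + c * β with hα₁
  have hpv : ES_b χ p v = ES_b χ p v₁ := by
    rw [hv₁, ES_b_add_right, ES_b_smul_right, ES_b_self hχ, mul_zero, add_zero]
  have hpv' : ES_b χ p v₁ = v₁ ⬝ᵥ (p ᵥ* χ) := by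
    rw [ES_b, dotProduct_mulVec, dotProduct_comm]
  have h2 : v₁ ⬝ᵥ (z' - t' • (p ᵥ* χ)) + α₁ * t' = 1 := by
    rw [dotProduct_sub, dotProduct_smul, ← hpv', hα₁, hpv, smul_eq_mul, ← h1]
    ring
  -- second shortening
  obtain ⟨q, s, h3⟩ := ES_SR (hSR _ hι) v₁ α₁ _ _ h2
  obtain ⟨τ₃, hτ₃, g₃⟩ := ES_O3 hχ (-q)
  set v₂ : ι → A := v₁ + α₁ • q with hv₂
  set β₂ : A := β + ES_b χ (-q) v₁ with hβ₂
  -- make the coordinate equal to one
  obtain ⟨τ₄, hτ₄, g₄⟩ := ES_O1 hχ (((1 - α₁) • s) ᵥ* χ⁻¹)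
  have h4 : ES_b χ (((1 - α₁) • s) ᵥ* χ⁻¹) v₂ = 1 - α₁ := by
    rw [ES_b, dotProduct_mulVec, vecMul_vecMul, Matrix.nonsing_inv_mul _ hd, vecMul_one,
      smul_dotProduct, dotProduct_comm, h3, smul_eq_mul, mul_one]
  set v₃ : ι → A := v₂ + β₂ • (((1 - α₁) • s) ᵥ* χ⁻¹) with hv₃
  obtain ⟨τ₅, hτ₅, g₅⟩ := ES_O3 hχ v₃
  obtain ⟨τ₆, hτ₆, g₆⟩ := ES_O4 hχ β₂
  refine ⟨τ₆ * (τ₅ * (τ₄ * (τ₃ * (τ₂ * τ₁)))), ?_, ?_⟩
  · exact (ES_I _).mul_mem hτ₆ ((ES_I _).mul_mem hτ₅ ((ES_I _).mul_mem hτ₄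
      ((ES_I _).mul_mem hτ₃ ((ES_I _).mul_mem hτ₂ hτ₁))))
  · rw [← mulVec_mulVec, ← mulVec_mulVec, ← mulVec_mulVec, ← mulVec_mulVec, ← mulVec_mulVec,
      g₁, g₂, ← hv₁, ← hα₁, g₃, ← hβ₂]
    have e1 : v₁ - α₁ • (-q) = v₂ := by rw [hv₂, smul_neg, sub_neg_eq_add]
    rw [e1, g₄, h4, ← hv₃, g₅, g₆]
    congr 1
    · ext i
      simp
    · ring
    · rw [ES_b_self hχ]
      ring

/-- ES. -/
theorem ES : ES_stmt.{u} := by
  intro A _ ι _ _ hι hSR χ hχ hd x y hxy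
  set B := dsum χ (Hyp (Fin 1) A) with hB
  have hx := ES_J_eta x
  set v : ι → A := fun i => x (Sum.inl i) with hv
  set α := x (Sum.inr (Sum.inl 0)) with hα
  set β := x (Sum.inr (Sum.inr 0)) with hβ
  have hum : v ⬝ᵥ (fun i => (B *ᵥ y) (Sum.inl i)) + α * (B *ᵥ y) (Sum.inr (Sum.inl 0)) +
      β * (B *ᵥ y) (Sum.inr (Sum.inr 0)) = 1 := by
    rw [← hxy, dotProduct, dotProduct, Fintype.sum_sum_type, Fintype.sum_sum_type]
    simp only [Finset.univ_unique, Finset.sum_singleton, Fin.default_eq_zero, Fin.isValue]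
    ring
  obtain ⟨τ₁, hτ₁, h1⟩ := ES_move (by omega) hSR hχ hd v _ α β _ _ hum
  rw [← hx] at h1
  have hy := ES_J_eta (τ₁ *ᵥ y)
  set v' : ι → A := fun i => (τ₁ *ᵥ y) (Sum.inl i) with hv'
  set α' := (τ₁ *ᵥ y) (Sum.inr (Sum.inl 0)) with hα'
  set β' := (τ₁ *ᵥ y) (Sum.inr (Sum.inr 0)) with hβ'
  have hβ1 : β' = 1 := by
    have h2 : ES_b B (τ₁ *ᵥ x) (τ₁ *ᵥ y) = 1 := by
      rw [← hxy]
      have := hτ₁.2
      calc ES_b B (τ₁ *ᵥ x) (τ₁ *ᵥ y) = x ⬝ᵥ ((τ₁ᵀ * B * τ₁) *ᵥ y) := by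
            unfold ES_b
            rw [← mulVec_mulVec, ← mulVec_mulVec, dotProduct_mulVec x, vecMul_transpose]
        _ = x ⬝ᵥ (B *ᵥ y) := by rw [this]
    rw [h1, hy, ← ES_J_e, ES_b_e] at h2
    exact h2
  obtain ⟨τ₂, hτ₂, g₂⟩ := ES_O1 hχ (-v')
  obtain ⟨τ₃, hτ₃, g₃⟩ := ES_O2 hχ (-α')
  have hmem : τ₃ * (τ₂ * τ₁) ∈ ES_I B :=
    (ES_I _).mul_mem hτ₃ ((ES_I _).mul_mem hτ₂ hτ₁)
  refine ⟨τ₃ * (τ₂ * τ₁), hmem.1, hmem.2, ?_, ?_⟩
  · rw [← mulVec_mulVec, ← mulVec_mulVec, h1, g₂, g₃, ES_J_e]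
    congr 1
    · ext i
      simp
    · simp [ES_b]
  · rw [← mulVec_mulVec, ← mulVec_mulVec, hy, g₂, g₃, ES_J_f, hβ1]
    congr 1
    · ext i
      simp
    · have : ES_b χ (-v') v' = 0 := by
        have h3 : (-v' : ι → A) = (-1 : A) • v' := by simp
        rw [h3, ES_b_smul_left, ES_b_self hχ, mul_zero]
      rw [this]
      ring

end ESmain

end GB
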